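import Pool.Agent.K9h87.TI.Lex

/-!
# An edge-isoperimetric inequality in the transposition graph, for sets of every size
-/

set_option autoImplicit false

namespace Pool.Agent.Results.MP_5ffd91_co.BoundaryInequality

open Finset Equiv Nat Pool.Agent.K9h87.TI

/-- For every set `A` of permutations of `n` elements and every `q`, the edge boundary of `A` in
the transposition graph has at least `|A| (C(n,2) + 1 - C(q,2) - |A| / q!)` edges. -/
theorem result (n q : ℕ) (A : Finset (Perm (Fin n))) :
    (A.card : ℝ) * ((n.choose 2 : ℝ) + 1 - (q.choose 2 : ℝ) - (A.card : ℝ) / (q ! : ℝ)) ≤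
      (bnd A : ℝ) := by
  have h1 := bnd_S A
  have h2 := S_le A q
  have h3 : 2 * (bnd A : ℝ) + S A = A.card * ((n : ℝ) * n - n) := by
    rw [← Nat.cast_mul n n, ← Nat.cast_sub (Nat.le_mul_self n)]
    exact_mod_cast h1
  unfold G at h2
  rw [Nat.cast_choose_two, Nat.cast_choose_two]
  linarith

end Pool.Agent.Results.MP_5ffd91_co.BoundaryInequality
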