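import Pool.Agent.K9h87.TI.Lex

/-!
# Ben Efraim's conjecture for the sizes `j * q!` and `n! - j * q!`, `j ≤ q + 1`

Among all sets of `m` permutations of `n` elements, the initial segment of the lexicographic order
has the smallest edge boundary in the transposition graph, for every `n` and every `m` that is a
multiple `j * q!`, `j ≤ q + 1`, of a factorial (one nonzero digit in the factorial number system),
and for the complementary sizes. The proof shows `2 e(A) ≤ |A| L_q(|A|)` with
`L_q(x) = q (q - 1) / 2 - 1 + x / q!` for every set `A` and all `q`, by induction on `|A|`.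
-/

set_option autoImplicit false

namespace Pool.Agent.Results.MP_5ffd91_co.FactorialSizes

open Finset Equiv Nat Pool.Agent.K9h87.TI

/-- Lexicographic initial segments of size `j * q!` or `n! - j * q!`, `j ≤ q + 1`, minimise the
edge boundary. -/
theorem result (n q j : ℕ) (hj : j ≤ q + 1) (A : Finset (Perm (Fin n)))
    (hA : A.card = j * q ! ∨ A.card + j * q ! = n !) :
    bnd (lexInit n A.card) ≤ bnd A :=
  sizes q j hj A hA

end Pool.Agent.Results.MP_5ffd91_co.FactorialSizes
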