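import Pool.Agent.K9h87.TI.Factor

/-!
# Lexicographic initial segments are optimal up to the factor `13 / 11`, for sets of every size

Proof. Every set `A` satisfies `|∂A| ≥ |A| (C(n,2) + 1 - C(q,2) - |A| / q!)` for all `q`. The
boundaries of the initial segments obey the recursion of the factorial number system, which shows
that for `q! ≤ m < (q + 1)!` the boundary of the initial segment of size `m` exceeds the bound by at
most `(q - 1) y (1 - y / q!) + (q - 1) (q - 1)! / 4`, `y = m mod q!`.
-/

set_option autoImplicit false

namespace Pool.Agent.Results.MP_5ffd91_co.WithinFactor

open Finset Equiv Pool.Agent.K9h87.TI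

/-- For every `n` and every set `A` of permutations of `n` elements, the edge boundary of the set of
the `|A|` lexicographically smallest permutations is at most `13 / 11` times the edge boundary
of `A`. -/
theorem result (n : ℕ) (A : Finset (Perm (Fin n))) :
    11 * bnd (lexInit n A.card) ≤ 13 * bnd A :=
  factor A

end Pool.Agent.Results.MP_5ffd91_co.WithinFactor
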